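import Pool.Agent.OddP.Basic

/-!
# From satisfiability to ODD-PATHS
-/

namespace OddP

/-- A clause: a list of literals `(x, b)`, true under the assignment `s` iff `s x = b`. -/
abbrev Clause := List (ℕ × Bool)

/-- Satisfiability of a list of clauses. -/
def Sat (φ : List Clause) : Prop :=
  ∃ s : ℕ → Bool, ∀ C ∈ φ, ∃ l ∈ C, s l.1 = l.2

/-- The vertices of the graph of a formula. -/
inductive Vx where
  | A0 (x : ℕ)
  | A (x : ℕ)
  | B (x : ℕ)
  | S0 (c : ℕ)
  | S (c : ℕ)
  | T (c : ℕ)
  | P (x : ℕ) (b : Bool) (r : ℕ)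
  deriving DecidableEq

open Vx

/-- edges of the variable gadget of `x`, ends -/
def edA (M x : ℕ) : List (Vx × Vx) :=
  [(A0 x, A x), (A x, P x false 0), (A x, P x true 0), (P x false (2 * M), B x),
    (P x true (2 * M), B x)]

/-- edges of the two sides of the gadget of `x` -/
def edP (M x : ℕ) : List (Vx × Vx) :=
  (List.range (2 * M)).flatMap (fun r =>
    [(P x false r, P x false (r + 1)), (P x true r, P x true (r + 1))])

/-- edges of the clause number `c` -/
def edC (c : ℕ) (C : Clause) : List (Vx × Vx) :=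
  (S0 c, S c) :: C.flatMap (fun l =>
    [(S c, P l.1 l.2 (2 * c + 1)), (P l.1 l.2 (2 * c + 1), T c)])

/-- The graph of the formula with `V` variables and `M` clauses; `cl c` is the clause
number `c`. -/
def satInst (V M : ℕ) (cl : ℕ → Clause) : Inst Vx where
  edges := (List.range V).flatMap (edA M) ++ ((List.range V).flatMap (edP M) ++
    (List.range M).flatMap (fun c => edC c (cl c)))
  k := V + M
  X := (List.range V).map A0 ++ (List.range M).map S0
  Y := (List.range V).map B ++ (List.range M).map T

/-- adjacency -/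
def adj (V M : ℕ) (cl : ℕ → Clause) (u v : Vx) : Prop :=
  (u, v) ∈ (satInst V M cl).edges ∨ (v, u) ∈ (satInst V M cl).edges

theorem adj_A0 {V M : ℕ} {cl : ℕ → Clause} {x : ℕ} {v : Vx} (h : adj V M cl (A0 x) v) :
    v = A x := by
  simp only [adj, satInst, List.mem_append, List.mem_flatMap, List.mem_range, edA, edP, edC,
    List.mem_cons, Prod.mk.injEq, reduceCtorEq, List.not_mem_nil, A0.injEq, false_and, and_false,
    or_false, false_or, exists_false] at h
  aesop

theorem adj_S0 {V M : ℕ} {cl : ℕ → Clause} {x : ℕ} {v : Vx} (h : adj V M cl (S0 x) v) :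
    v = S x := by
  simp only [adj, satInst, List.mem_append, List.mem_flatMap, List.mem_range, edA, edP, edC,
    List.mem_cons, Prod.mk.injEq, reduceCtorEq, List.not_mem_nil, S0.injEq, false_and, and_false,
    or_false, false_or, exists_false] at h
  aesop

theorem adj_A {V M : ℕ} {cl : ℕ → Clause} {x : ℕ} {v : Vx} (h : adj V M cl (A x) v) :
    v = A0 x ∨ ∃ b, v = P x b 0 := by
  simp only [adj, satInst, List.mem_append, List.mem_flatMap, List.mem_range, edA, edP, edC,
    List.mem_cons, Prod.mk.injEq, reduceCtorEq, List.not_mem_nil, A.injEq, false_and, and_false,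
    or_false, false_or, exists_false] at h
  aesop

theorem adj_S {V M : ℕ} {cl : ℕ → Clause} {c : ℕ} {v : Vx} (h : adj V M cl (S c) v) :
    v = S0 c ∨ ∃ x b, (x, b) ∈ cl c ∧ v = P x b (2 * c + 1) := by
  simp only [adj, satInst, List.mem_append, List.mem_flatMap, List.mem_range, edA, edP, edC,
    List.mem_cons, Prod.mk.injEq, reduceCtorEq, List.not_mem_nil, S.injEq, false_and, and_false,
    or_false, false_or, exists_false] at h
  rcases h with h | h
  · obtain ⟨a, ha, l, hl, h1, h2⟩ := h
    subst h1
    exact Or.inr ⟨l.1, l.2, hl, h2⟩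
  · obtain ⟨a, ha, h1, h2⟩ := h
    subst h2
    exact Or.inl h1

theorem adj_P {V M : ℕ} {cl : ℕ → Clause} {x : ℕ} {b : Bool} {r : ℕ} {v : Vx}
    (h : adj V M cl (P x b r) v) :
    (v = A x ∧ r = 0) ∨ (v = B x ∧ r = 2 * M) ∨ v = P x b (r + 1) ∨ (0 < r ∧ v = P x b (r - 1)) ∨
      ∃ c, c < M ∧ r = 2 * c + 1 ∧ (v = S c ∨ v = T c) := by
  simp only [adj, satInst, List.mem_append, List.mem_flatMap, List.mem_range, edA, edP, edC,
    List.mem_cons, Prod.mk.injEq, reduceCtorEq, List.not_mem_nil, P.injEq, false_and, and_false,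
    or_false, false_or, exists_false] at h
  rcases h with (⟨y, hy, h⟩ | ⟨y, hy, s, hs, h⟩ | ⟨c, hc, l, hl, h⟩) |
    (⟨y, hy, h⟩ | ⟨y, hy, s, hs, h⟩ | ⟨c, hc, l, hl, h⟩)
  · aesop
  · rcases h with ⟨⟨rfl, rfl, rfl⟩, rfl⟩ | ⟨⟨rfl, rfl, rfl⟩, rfl⟩ <;> simp
  · obtain ⟨⟨rfl, rfl, rfl⟩, rfl⟩ := h
    right; right; right; right
    exact ⟨c, hc, rfl, Or.inr rfl⟩
  · aesop
  · rcases h with ⟨rfl, ⟨rfl, rfl, rfl⟩⟩ | ⟨rfl, ⟨rfl, rfl, rfl⟩⟩ <;> simp
  · obtain ⟨rfl, ⟨rfl, rfl, rfl⟩⟩ := h
    right; right; right; right
    exact ⟨c, hc, rfl, Or.inl rfl⟩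

theorem mem_X {V M : ℕ} {cl : ℕ → Clause} {v : Vx} :
    v ∈ (satInst V M cl).X ↔ (∃ x < V, v = A0 x) ∨ ∃ c < M, v = S0 c := by
  simp only [satInst, List.mem_append, List.mem_map, List.mem_range]
  aesop

theorem mem_Y {V M : ℕ} {cl : ℕ → Clause} {v : Vx} :
    v ∈ (satInst V M cl).Y ↔ (∃ x < V, v = B x) ∨ ∃ c < M, v = T c := by
  simp only [satInst, List.mem_append, List.mem_map, List.mem_range]
  aesop

theorem adj_of_joins {V M : ℕ} {cl : ℕ → Clause} {e : ℕ} {u v : Vx}
    (h : (satInst V M cl).Joins e u v) : adj V M cl u v := h.mem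

/-- If the instance of a formula is a yes-instance, the formula is satisfiable. -/
theorem sat_of_yes (V M : ℕ) (cl : ℕ → Clause) (hV : ∀ c < M, ∀ l ∈ cl c, l.1 < V)
    (h : (satInst V M cl).Yes) : ∃ s : ℕ → Bool, ∀ c < M, ∃ l ∈ cl c, s l.1 = l.2 := by
  obtain ⟨Q, hodd, hQ⟩ := h
  -- basic facts on the paths
  have h1 : ∀ a, adj V M cl ((Q a).v 0) ((Q a).v 1) := fun a =>
    adj_of_joins ((Q a).join 0 (hodd a).pos)
  have hlen : ∀ a, 1 < (Q a).len := by
    intro a
    by_contra hcon
    have h0 := (hodd a).pos
    have hl : (Q a).len = 1 := by omega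
    have hs := (Q a).stop
    rw [hl] at hs
    rcases mem_X.1 (Q a).start with ⟨x, -, hx⟩ | ⟨c, -, hx⟩
    · have := h1 a
      rw [hx] at this
      rw [adj_A0 this] at hs
      rcases mem_Y.1 hs with ⟨x, -, hx⟩ | ⟨c, -, hx⟩ <;> exact absurd hx (by simp)
    · have := h1 a
      rw [hx] at this
      rw [adj_S0 this] at hs
      rcases mem_Y.1 hs with ⟨x, -, hx⟩ | ⟨c, -, hx⟩ <;> exact absurd hx (by simp)
  have hstart : ∀ a b, (Q a).v 0 = (Q b).v 0 → a = b := by
    intro a b hab
    by_contra hne
    have hd := (hQ a b hne).1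
    rw [Set.disjoint_left] at hd
    apply hd ⟨1, one_pos, hlen a, rfl⟩
    refine ⟨1, one_pos, hlen b, ?_⟩
    have ha := h1 a
    have hb := h1 b
    rcases mem_X.1 (Q a).start with ⟨x, -, hx⟩ | ⟨c, -, hx⟩
    · rw [← hab, hx] at hb
      rw [hx] at ha
      rw [adj_A0 ha, adj_A0 hb]
    · rw [← hab, hx] at hb
      rw [hx] at ha
      rw [adj_S0 ha, adj_S0 hb]
  -- every vertex of `X` is a start
  have hsurj : ∀ w ∈ (satInst V M cl).X, ∃ a, (Q a).v 0 = w := by
    classical
    have hcard : (satInst V M cl).X.toFinset.card = V + M := by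
      rw [List.toFinset_card_of_nodup]
      · simp [satInst]
      · simp only [satInst]
        apply List.Nodup.append
        · exact (List.nodup_range).map (fun a b h => by simpa using h)
        · exact (List.nodup_range).map (fun a b h => by simpa using h)
        · intro u hu hv
          simp only [List.mem_map] at hu hv
          obtain ⟨x, -, rfl⟩ := hu
          obtain ⟨c, -, hc⟩ := hv
          exact absurd hc (by simp)
    have himg : (Finset.univ.image (fun a => (Q a).v 0)) = (satInst V M cl).X.toFinset := by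
      apply Finset.eq_of_subset_of_card_le
      · intro w hw
        simp only [Finset.mem_image, Finset.mem_univ, true_and] at hw
        obtain ⟨a, rfl⟩ := hw
        exact List.mem_toFinset.2 (Q a).start
      · rw [hcard, Finset.card_image_of_injective _ (fun a b h => hstart a b h)]
        rw [Finset.card_univ, Fintype.card_fin]
        exact le_rfl
    intro w hw
    have : w ∈ (Finset.univ.image (fun a => (Q a).v 0)) := by
      rw [himg]; exact List.mem_toFinset.2 hw
    simp only [Finset.mem_image, Finset.mem_univ, true_and] at this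
    exact this
  -- the path starting at a variable
  have hvar : ∀ x < V, ∃ a b, (Q a).v 0 = A0 x ∧ ∀ r ≤ 2 * M,
      P x b r ∈ (Q a).internal := by
    intro x hx
    obtain ⟨a, ha⟩ := hsurj (A0 x) (mem_X.2 (Or.inl ⟨x, hx, rfl⟩))
    have hv1 : (Q a).v 1 = A x := by
      have := h1 a
      rw [ha] at this
      exact adj_A0 this
    have hv2 : ∃ b, (Q a).v 2 = P x b 0 := by
      have := adj_of_joins ((Q a).join 1 (hlen a))
      rw [hv1] at this
      rcases adj_A this with h | h
      · exfalso
        have := (Q a).inj 2 (hlen a) 0 (Nat.zero_le _) (by rw [ha]; exact h)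
        omega
      · exact h
    obtain ⟨b, hb⟩ := hv2
    refine ⟨a, b, ha, ?_⟩
    have key : ∀ r ≤ 2 * M, ∀ r' ≤ r, r' + 2 < (Q a).len ∧ (Q a).v (r' + 2) = P x b r' := by
      intro r
      induction r with
      | zero =>
        intro _ r' hr'
        obtain rfl : r' = 0 := by omega
        refine ⟨?_, hb⟩
        rcases Nat.lt_or_ge 2 (Q a).len with h | h
        · exact h
        · exfalso
          have h2 : (Q a).len = 2 := by have := hlen a; omega
          have hs := (Q a).stop
          rw [h2, hb] at hs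
          rcases mem_Y.1 hs with ⟨x, -, hx⟩ | ⟨c, -, hx⟩ <;> exact absurd hx (by simp)
      | succ r ih =>
        intro hr r' hr'
        rcases Nat.lt_or_ge r' (r + 1) with hlt | hge
        · exact ih (by omega) r' (by omega)
        obtain rfl : r' = r + 1 := by omega
        obtain ⟨ih1, ih2⟩ := ih (by omega) r le_rfl
        have hj := adj_of_joins ((Q a).join (r + 2) ih1)
        rw [ih2] at hj
        have hv3 : (Q a).v (r + 2 + 1) = P x b (r + 1) := by
          rcases adj_P hj with ⟨h, -⟩ | ⟨h, h'⟩ | h | ⟨h0, h⟩ | ⟨c, hc, hrc, h | h⟩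
          · exfalso
            have := (Q a).inj (r + 2 + 1) ih1 1 (hlen a).le (by rw [h, hv1])
            omega
          · omega
          · exact h
          · exfalso
            obtain ⟨r', rfl⟩ : ∃ r', r = r' + 1 := ⟨r - 1, by omega⟩
            obtain ⟨ih3, ih4⟩ := ih (by omega) r' (by omega)
            have := (Q a).inj (r' + 1 + 2 + 1) ih1 (r' + 2) ih3.le (by rw [h, ih4]; simp)
            omega
          · exfalso
            -- `S c` is an internal vertex of the path starting at `S0 c`
            obtain ⟨a', ha'⟩ := hsurj (S0 c) (mem_X.2 (Or.inr ⟨c, hc, rfl⟩))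
            have h1' := h1 a'
            rw [ha'] at h1'
            have hS := adj_S0 h1'
            have hne : a ≠ a' := by
              rintro rfl
              rw [ha] at ha'
              exact absurd ha' (by simp)
            rcases Nat.lt_or_ge (r + 2 + 1) (Q a).len with hl | hl
            · have hd := (hQ a a' hne).1
              rw [Set.disjoint_left] at hd
              exact hd ⟨r + 2 + 1, by omega, hl, h⟩ ⟨1, one_pos, hlen a', hS⟩
            · have hl' : (Q a).len = r + 2 + 1 := by omega
              have hs := (Q a).stop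
              rw [hl', h] at hs
              rcases mem_Y.1 hs with ⟨x, -, hx⟩ | ⟨c, -, hx⟩ <;> exact absurd hx (by simp)
          · exfalso
            have hl : ¬ (r + 2 + 1 < (Q a).len) := by
              intro hl
              apply ((Q a).inner (r + 2 + 1) (by omega) hl).2
              rw [h]
              exact mem_Y.2 (Or.inr ⟨c, hc, rfl⟩)
            have hl' : (Q a).len = 2 * (c + 2) := by omega
            have := hodd a
            rw [hl'] at this
            exact (Nat.not_odd_iff_even.2 ⟨c + 2, by ring⟩) this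
        refine ⟨?_, hv3⟩
        rcases Nat.lt_or_ge (r + 2 + 1) (Q a).len with hl | hl
        · omega
        · exfalso
          have hl' : (Q a).len = r + 2 + 1 := by omega
          have hs := (Q a).stop
          rw [hl', hv3] at hs
          rcases mem_Y.1 hs with ⟨x, -, hx⟩ | ⟨c, -, hx⟩ <;> exact absurd hx (by simp)
    intro r hr
    obtain ⟨k1, k2⟩ := key r hr r le_rfl
    exact ⟨r + 2, by omega, k1, k2⟩
  choose! av bv hav hbv using hvar
  refine ⟨fun x => !(bv x), ?_⟩
  intro c hc
  obtain ⟨a, ha⟩ := hsurj (S0 c) (mem_X.2 (Or.inr ⟨c, hc, rfl⟩))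
  have hv1 : (Q a).v 1 = S c := by
    have := h1 a
    rw [ha] at this
    exact adj_S0 this
  have hj := adj_of_joins ((Q a).join 1 (hlen a))
  rw [hv1] at hj
  rcases adj_S hj with h | ⟨x, b, hxb, h⟩
  · exfalso
    have := (Q a).inj 2 (hlen a) 0 (Nat.zero_le _) (by rw [ha]; exact h)
    omega
  · have hl : 2 < (Q a).len := by
      rcases Nat.lt_or_ge 2 (Q a).len with h2 | h2
      · exact h2
      · exfalso
        have h2' : (Q a).len = 2 := by have := hlen a; omega
        have hs := (Q a).stop
        rw [h2', h] at hs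
        rcases mem_Y.1 hs with ⟨x, -, hx⟩ | ⟨c, -, hx⟩ <;> exact absurd hx (by simp)
    refine ⟨(x, b), hxb, ?_⟩
    have hx := hV c hc _ hxb
    by_contra hcon
    have hbx : bv x = b := by
      simp only at hcon
      revert hcon
      cases b <;> cases bv x <;> simp
    have hne : av x hx ≠ a := by
      intro he
      have := hav x hx
      rw [he, ha] at this
      exact absurd this (by simp)
    have hd := (hQ _ _ hne).1
    rw [Set.disjoint_left] at hd
    have hin := hbv x hx (2 * c + 1) (by omega)
    rw [hbx] at hin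
    exact hd hin ⟨2, by omega, hl, h⟩

/-- If the formula is satisfiable, the instance is a yes-instance. -/
theorem yes_of_sat (V M : ℕ) (cl : ℕ → Clause) (hV : ∀ c < M, ∀ l ∈ cl c, l.1 < V)
    (h : ∃ s : ℕ → Bool, ∀ c < M, ∃ l ∈ cl c, s l.1 = l.2) : (satInst V M cl).Yes := by
  obtain ⟨s, hs⟩ := h
  -- the edges that are used
  have e1 : ∀ x < V, adj V M cl (A0 x) (A x) := by
    intro x hx
    left
    simp only [satInst, List.mem_append, List.mem_flatMap, List.mem_range, edA]
    left; exact ⟨x, hx, by simp⟩
  have e2 : ∀ x < V, ∀ b, adj V M cl (A x) (P x b 0) := by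
    intro x hx b
    left
    simp only [satInst, List.mem_append, List.mem_flatMap, List.mem_range, edA]
    left; exact ⟨x, hx, by cases b <;> simp⟩
  have e3 : ∀ x < V, ∀ b, adj V M cl (P x b (2 * M)) (B x) := by
    intro x hx b
    left
    simp only [satInst, List.mem_append, List.mem_flatMap, List.mem_range, edA]
    left; exact ⟨x, hx, by cases b <;> simp⟩
  have e4 : ∀ x < V, ∀ b, ∀ r < 2 * M, adj V M cl (P x b r) (P x b (r + 1)) := by
    intro x hx b r hr
    left
    simp only [satInst, List.mem_append, List.mem_flatMap, List.mem_range, edP]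
    right; left; exact ⟨x, hx, r, hr, by cases b <;> simp⟩
  have e5 : ∀ c < M, adj V M cl (S0 c) (S c) := by
    intro c hc
    left
    simp only [satInst, List.mem_append, List.mem_flatMap, List.mem_range, edC]
    right; right; exact ⟨c, hc, by simp⟩
  have e6 : ∀ c < M, ∀ l ∈ cl c, adj V M cl (S c) (P l.1 l.2 (2 * c + 1)) ∧
      adj V M cl (P l.1 l.2 (2 * c + 1)) (T c) := by
    intro c hc l hl
    constructor
    · left
      simp only [satInst, List.mem_append, List.mem_flatMap, List.mem_range, edC, List.mem_cons]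
      right; right; exact ⟨c, hc, Or.inr ⟨l, hl, by simp⟩⟩
    · left
      simp only [satInst, List.mem_append, List.mem_flatMap, List.mem_range, edC, List.mem_cons]
      right; right; exact ⟨c, hc, Or.inr ⟨l, hl, by simp⟩⟩
  have hX : ∀ u, (∃ x < V, u = A0 x) ∨ (∃ c < M, u = S0 c) → u ∈ (satInst V M cl).X :=
    fun u h => mem_X.2 h
  have hY : ∀ u, (∃ x < V, u = B x) ∨ (∃ c < M, u = T c) → u ∈ (satInst V M cl).Y :=
    fun u h => mem_Y.2 h
  classical
  -- choice of edges
  have hpick : ∀ u v, ∃ e, adj V M cl u v → (satInst V M cl).Joins e u v := by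
    intro u v
    by_cases h : adj V M cl u v
    · obtain ⟨e, he⟩ := Inst.joins_of_mem h
      exact ⟨e, fun _ => he⟩
    · exact ⟨0, fun h' => absurd h' h⟩
  choose pick hpick using hpick
  have hl : ∀ c, ∃ l : ℕ × Bool, c < M → l ∈ cl c ∧ s l.1 = l.2 := by
    intro c
    by_cases h : c < M
    · obtain ⟨l, hl, hl2⟩ := hs c h
      exact ⟨l, fun _ => ⟨hl, hl2⟩⟩
    · exact ⟨(0, false), fun h' => absurd h' h⟩
  choose li hli using hl
  -- the path of a variable
  let va : ℕ → ℕ → Vx := fun x i =>
    if i = 0 then A0 x else if i = 1 then A x else if i = 2 * M + 3 then B x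
      else P x (!(s x)) (i - 2)
  have va0 : ∀ x, va x 0 = A0 x := fun x => by simp [va]
  have va1 : ∀ x, va x 1 = A x := fun x => by simp [va]
  have va2 : ∀ x r, r ≤ 2 * M → va x (r + 2) = P x (!(s x)) r := fun x r hr => by
    simp only [va]
    rw [if_neg (by omega), if_neg (by omega), if_neg (by omega)]
    simp
  have va3 : ∀ x, va x (2 * M + 3) = B x := fun x => by simp [va]
  have vcases : ∀ i ≤ 2 * M + 3, i = 0 ∨ i = 1 ∨ (∃ r ≤ 2 * M, i = r + 2) ∨ i = 2 * M + 3 := by
    intro i hi
    rcases Nat.lt_or_ge i 2 with h | h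
    · omega
    · rcases Nat.lt_or_ge i (2 * M + 3) with h' | h'
      · right; right; left; exact ⟨i - 2, by omega, by omega⟩
      · omega
  let pv : ∀ x : ℕ, x < V → (satInst V M cl).XYPath := fun x hx =>
    { len := 2 * M + 3
      v := va x
      e := fun i => pick (va x i) (va x (i + 1))
      join := by
        intro i hi
        apply hpick
        rcases vcases i hi.le with rfl | rfl | ⟨r, hr, rfl⟩ | rfl
        · rw [va0, va1]; exact e1 x hx
        · rw [va1, va2 x 0 (Nat.zero_le _)]; exact e2 x hx _
        · rw [va2 x r hr]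
          rcases Nat.lt_or_ge r (2 * M) with h | h
          · rw [show r + 2 + 1 = r + 1 + 2 by ring, va2 x (r + 1) h]
            exact e4 x hx _ r h
          · obtain rfl : r = 2 * M := by omega
            rw [va3]
            exact e3 x hx _
        · omega
      inj := by
        intro i hi j hj h
        rcases vcases i hi with rfl | rfl | ⟨r, hr, rfl⟩ | rfl <;>
          rcases vcases j hj with rfl | rfl | ⟨r', hr', rfl⟩ | rfl
        all_goals first
          | rfl
          | (rw [va2 x _ hr, va2 x _ hr'] at h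
             simp only [Vx.P.injEq, true_and] at h
             rw [h])
          | (exfalso
             simp only [va0, va1, va3, va2 x _ hr, reduceCtorEq] at h)
          | (exfalso
             simp only [va0, va1, va3, va2 x _ hr', reduceCtorEq] at h)
          | (exfalso
             simp only [va0, va1, va3, reduceCtorEq] at h)
      start := by
        change va x 0 ∈ _
        rw [va0]; exact hX _ (Or.inl ⟨x, hx, rfl⟩)
      stop := by
        change va x (2 * M + 3) ∈ _
        rw [va3]; exact hY _ (Or.inl ⟨x, hx, rfl⟩)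
      inner := by
        intro i hi hi2
        rw [mem_X, mem_Y]
        rcases vcases i hi2.le with rfl | rfl | ⟨r, hr, rfl⟩ | rfl
        · omega
        · rw [va1]; simp
        · rw [va2 x r hr]; simp
        · omega }
  -- the path of a clause
  let vc : ℕ → ℕ → Vx := fun c i =>
    if i = 0 then S0 c else if i = 1 then S c else if i = 2 then P (li c).1 (li c).2 (2 * c + 1)
      else T c
  have vc0 : ∀ c, vc c 0 = S0 c := fun c => by simp [vc]
  have vc1 : ∀ c, vc c 1 = S c := fun c => by simp [vc]
  have vc2 : ∀ c, vc c 2 = P (li c).1 (li c).2 (2 * c + 1) := fun c => by simp [vc]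
  have vc3 : ∀ c, vc c 3 = T c := fun c => by simp [vc]
  have ccases : ∀ i ≤ 3, i = 0 ∨ i = 1 ∨ i = 2 ∨ i = 3 := by intro i hi; omega
  let pc : ∀ c : ℕ, c < M → (satInst V M cl).XYPath := fun c hc =>
    { len := 3
      v := vc c
      e := fun i => pick (vc c i) (vc c (i + 1))
      join := by
        intro i hi
        apply hpick
        rcases ccases i hi.le with rfl | rfl | rfl | rfl
        · rw [vc0, vc1]; exact e5 c hc
        · rw [vc1, vc2]; exact (e6 c hc _ (hli c hc).1).1
        · rw [vc2, vc3]; exact (e6 c hc _ (hli c hc).1).2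
        · omega
      inj := by
        intro i hi j hj h
        rcases ccases i hi with rfl | rfl | rfl | rfl <;>
          rcases ccases j hj with rfl | rfl | rfl | rfl
        all_goals first
          | rfl
          | (exfalso
             simp only [vc0, vc1, vc2, vc3, reduceCtorEq] at h)
      start := by
        change vc c 0 ∈ _
        rw [vc0]; exact hX _ (Or.inr ⟨c, hc, rfl⟩)
      stop := by
        change vc c 3 ∈ _
        rw [vc3]; exact hY _ (Or.inr ⟨c, hc, rfl⟩)
      inner := by
        intro i hi hi2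
        rw [mem_X, mem_Y]
        rcases ccases i hi2.le with rfl | rfl | rfl | rfl
        · omega
        · rw [vc1]; simp
        · rw [vc2]; simp
        · omega }
  -- internal vertices
  have ipv : ∀ x (hx : x < V) w, w ∈ (pv x hx).internal →
      w = A x ∨ ∃ r ≤ 2 * M, w = P x (!(s x)) r := by
    rintro x hx w ⟨i, hi, hi2, rfl⟩
    change i < 2 * M + 3 at hi2
    change va x i = _ ∨ ∃ r ≤ 2 * M, va x i = _
    rcases vcases i hi2.le with rfl | rfl | ⟨r, hr, rfl⟩ | rfl
    · omega
    · left; exact va1 x
    · right; exact ⟨r, hr, va2 x r hr⟩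
    · omega
  have ipc : ∀ c (hc : c < M) w, w ∈ (pc c hc).internal →
      w = S c ∨ w = P (li c).1 (s (li c).1) (2 * c + 1) := by
    rintro c hc w ⟨i, hi, hi2, rfl⟩
    change i < 3 at hi2
    change vc c i = _ ∨ vc c i = _
    rcases ccases i hi2.le with rfl | rfl | rfl | rfl
    · omega
    · left; exact vc1 c
    · right; rw [(hli c hc).2]; exact vc2 c
    · omega
  -- the family
  let F : Fin (V + M) → (satInst V M cl).XYPath := fun a =>
    if h : (a : ℕ) < V then pv a h else pc ((a : ℕ) - V) (by omega)
  have hF1 : ∀ (a : Fin (V + M)) (h : (a : ℕ) < V), F a = pv a h := fun a h => by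
    simp only [F]; rw [dif_pos h]
  have hF2 : ∀ (a : Fin (V + M)) (h : ¬ (a : ℕ) < V), F a = pc ((a : ℕ) - V) (by omega) :=
    fun a h => by simp only [F]; rw [dif_neg h]
  have hF0 : ∀ a, (F a).v 0 = if (a : ℕ) < V then A0 a else S0 (a - V) := by
    intro a
    by_cases h : (a : ℕ) < V
    · rw [hF1 a h, if_pos h]; exact va0 _
    · rw [hF2 a h, if_neg h]; exact vc0 _
  have hFne : ∀ a b, a ≠ b → (F a).v 0 ≠ (F b).v 0 := by
    intro a b hab h
    rw [hF0, hF0] at h
    apply hab
    ext
    split_ifs at h with h1 h2 h2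
    · simpa using h
    · simp only [S0.injEq] at h
      omega
  refine ⟨F, ?_, ?_⟩
  · intro a
    change Odd (F a).len
    by_cases h : (a : ℕ) < V
    · rw [hF1 a h]
      exact ⟨M + 1, by change 2 * M + 3 = _; ring⟩
    · rw [hF2 a h]
      exact ⟨1, rfl⟩
  · intro a b hab
    change a ≠ b at hab
    change Disjoint (F a).internal (F b).internal ∧ (F a).edgeSet ≠ (F b).edgeSet
    constructor
    · rw [Set.disjoint_left]
      intro w hwa hwb
      have hne : (a : ℕ) ≠ (b : ℕ) := fun h => hab (Fin.ext h)
      have hMa : ¬ (a : ℕ) < V → (a : ℕ) - V < M := fun h => by have := a.2; change (a : ℕ) < V + M at this; omega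
      have hMb : ¬ (b : ℕ) < V → (b : ℕ) - V < M := fun h => by have := b.2; change (b : ℕ) < V + M at this; omega
      by_cases h1 : (a : ℕ) < V <;> by_cases h2 : (b : ℕ) < V
      · rw [hF1 a h1] at hwa
        rw [hF1 b h2] at hwb
        rcases ipv _ h1 _ hwa with h | ⟨r, hr, h⟩ <;>
          rcases ipv _ h2 _ hwb with h' | ⟨r', hr', h'⟩ <;>
          rw [h] at h' <;> simp only [reduceCtorEq, P.injEq, A.injEq] at h'
        · exact hne h'
        · exact hne h'.1
      · rw [hF1 a h1] at hwa
        rw [hF2 b h2] at hwb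
        rcases ipv _ h1 _ hwa with h | ⟨r, hr, h⟩ <;>
          rcases ipc _ (hMb h2) _ hwb with h' | h' <;>
          rw [h] at h' <;> simp only [reduceCtorEq, P.injEq] at h'
        obtain ⟨h3, h4, -⟩ := h'
        rw [h3] at h4
        cases hsx : s (li ((b : ℕ) - V)).1 <;> rw [hsx] at h4 <;> simp at h4
      · rw [hF2 a h1] at hwa
        rw [hF1 b h2] at hwb
        rcases ipc _ (hMa h1) _ hwa with h | h <;>
          rcases ipv _ h2 _ hwb with h' | ⟨r, hr, h'⟩ <;>
          rw [h] at h' <;> simp only [reduceCtorEq, P.injEq] at h'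
        obtain ⟨h3, h4, -⟩ := h'
        rw [← h3] at h4
        cases hsx : s (li ((a : ℕ) - V)).1 <;> rw [hsx] at h4 <;> simp at h4
      · rw [hF2 a h1] at hwa
        rw [hF2 b h2] at hwb
        rcases ipc _ (hMa h1) _ hwa with h | h <;>
          rcases ipc _ (hMb h2) _ hwb with h' | h' <;>
          rw [h] at h' <;> simp only [reduceCtorEq, P.injEq, S.injEq] at h'
        · omega
        · omega
    · intro hE
      have hpos : ∀ a, 0 < (F a).len := by
        intro a
        by_cases h : (a : ℕ) < V
        · rw [hF1 a h]; change 0 < 2 * M + 3; omega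
        · rw [hF2 a h]; change 0 < 3; omega
      have hm : (F a).e 0 ∈ (F b).edgeSet := by
        rw [← hE]; exact ⟨0, hpos a, rfl⟩
      obtain ⟨i, hi, hie⟩ := hm
      have j1 := (F a).join 0 (hpos a)
      have j2 := (F b).join i hi
      rw [hie] at j2
      -- the two ends agree
      have hends : (F a).v 0 = (F b).v i ∨ (F a).v 0 = (F b).v (i + 1) := by
        rcases j1 with j1 | j1 <;> rcases j2 with j2 | j2 <;> rw [j1] at j2 <;>
          simp only [Option.some.injEq, Prod.mk.injEq] at j2
        · exact Or.inl j2.1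
        · exact Or.inr j2.1
        · exact Or.inr j2.2
        · exact Or.inl j2.2
      have hxy : ∀ j ≤ (F b).len, (F b).v j ∈ (satInst V M cl).X → j = 0 := by
        intro j hj hjX
        rcases Nat.eq_zero_or_pos j with h | h
        · exact h
        · rcases Nat.lt_or_ge j (F b).len with h' | h'
          · exact absurd hjX ((F b).inner j h h').1
          · exfalso
            obtain rfl : j = (F b).len := by omega
            have hy := (F b).stop
            rcases mem_X.1 hjX with ⟨x, -, hx⟩ | ⟨c, -, hx⟩ <;>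
              rcases mem_Y.1 hy with ⟨y, -, hy⟩ | ⟨d, -, hy⟩ <;>
              rw [hx] at hy <;> exact absurd hy (by simp)
      rcases hends with h | h
      · have hj0 := hxy i hi.le (h ▸ (F a).start)
        rw [hj0] at h
        exact hFne a b hab h
      · have hj0 := hxy (i + 1) hi (h ▸ (F a).start)
        omega

theorem satInst_yes_iff (V M : ℕ) (cl : ℕ → Clause) (hV : ∀ c < M, ∀ l ∈ cl c, l.1 < V) :
    (satInst V M cl).Yes ↔ ∃ s : ℕ → Bool, ∀ c < M, ∃ l ∈ cl c, s l.1 = l.2 :=
  ⟨sat_of_yes V M cl hV, yes_of_sat V M cl hV⟩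

end OddP
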