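import Pool.Agent.OddP.Sat

/-!
# Encodings of instances of ODD-PATHS
-/

namespace OddP

theorem encNat_inj {a b : ℕ} {s t : List Bool} (h : encNat a ++ s = encNat b ++ t) :
    a = b ∧ s = t := by
  induction a generalizing b with
  | zero =>
    rcases b with _ | b
    · simpa [encNat] using h
    · simp [encNat, List.replicate_succ] at h
  | succ a ih =>
    rcases b with _ | b
    · simp [encNat, List.replicate_succ] at h
    · have h' : encNat a ++ s = encNat b ++ t := by
        simpa [encNat, List.replicate_succ] using h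
      obtain ⟨h1, h2⟩ := ih h'
      exact ⟨by rw [h1], h2⟩

theorem encList_inj {α : Type} (f : α → List Bool)
    (hf : ∀ a b s t, f a ++ s = f b ++ t → a = b ∧ s = t) {l l' : List α} {s t : List Bool}
    (h : encList f l ++ s = encList f l' ++ t) : l = l' ∧ s = t := by
  induction l generalizing l' with
  | nil =>
    rcases l' with _ | ⟨b, l'⟩
    · simpa [encList] using h
    · simp [encList] at h
  | cons a l ih =>
    rcases l' with _ | ⟨b, l'⟩
    · simp [encList] at h
    · have h' : f a ++ (encList f l ++ s) = f b ++ (encList f l' ++ t) := by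
        simpa [encList] using h
      obtain ⟨h1, h2⟩ := hf _ _ _ _ h'
      obtain ⟨h3, h4⟩ := ih h2
      exact ⟨by rw [h1, h3], h4⟩

/-- Different instances have different encodings. -/
theorem encode_injective : Function.Injective Instance.encode := by
  intro I J h
  unfold Instance.encode at h
  obtain ⟨h1, h⟩ := encNat_inj h
  obtain ⟨h2, h⟩ := encNat_inj h
  obtain ⟨h3, h⟩ := encList_inj _ (by
    rintro ⟨a, a'⟩ ⟨b, b'⟩ s t hh
    simp only [List.append_assoc] at hh
    obtain ⟨e1, hh⟩ := encNat_inj hh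
    obtain ⟨e2, hh⟩ := encNat_inj hh
    exact ⟨by rw [e1, e2], hh⟩) h
  obtain ⟨h4, h⟩ := encList_inj _ (fun a b s t hh => encNat_inj hh) h
  have h' : encList encNat I.Y ++ [] = encList encNat J.Y ++ [] := by simpa using h
  obtain ⟨h5, -⟩ := encList_inj _ (fun a b s t hh => encNat_inj hh) h'
  rcases I with ⟨⟨e, k, X, Y⟩, n⟩
  rcases J with ⟨⟨e', k', X', Y'⟩, n'⟩
  simp only at h1 h2 h3 h4 h5
  subst h1 h2 h3 h4 h5
  rfl

/-! ## Numbering of the vertices of the graph of a formula -/

open Vx

/-- The number of a vertex. -/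
def num (V M : ℕ) : Vx → ℕ
  | A0 x => x
  | A x => V + x
  | B x => 2 * V + x
  | S0 c => 3 * V + c
  | S c => 3 * V + M + c
  | T c => 3 * V + 2 * M + c
  | P x b r => 3 * V + 3 * M + ((2 * x + b.toNat) * (2 * M + 1) + r)

/-- The vertices in use. -/
def used (V M : ℕ) : Set Vx := {v | match v with
  | A0 x => x < V
  | A x => x < V
  | B x => x < V
  | S0 c => c < M
  | S c => c < M
  | T c => c < M
  | P x _ r => x < V ∧ r < 2 * M + 1}

theorem num_injOn (V M : ℕ) : Set.InjOn (num V M) (used V M) := by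
  intro u hu v hv h
  have hP : ∀ x b r x' b' r', r < 2 * M + 1 → r' < 2 * M + 1 →
      (2 * x + Bool.toNat b) * (2 * M + 1) + r = (2 * x' + Bool.toNat b') * (2 * M + 1) + r' →
      x = x' ∧ b = b' ∧ r = r' := by
    intro x b r x' b' r' hr hr' h
    have h1 : 2 * x + Bool.toNat b = 2 * x' + Bool.toNat b' := by
      have e1 : ((2 * x + Bool.toNat b) * (2 * M + 1) + r) / (2 * M + 1) = 2 * x + Bool.toNat b := by
        rw [Nat.mul_comm _ (2 * M + 1), Nat.mul_add_div (by omega), Nat.div_eq_of_lt hr,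
          Nat.add_zero]
      have e2 : ((2 * x' + Bool.toNat b') * (2 * M + 1) + r') / (2 * M + 1) =
          2 * x' + Bool.toNat b' := by
        rw [Nat.mul_comm _ (2 * M + 1), Nat.mul_add_div (by omega), Nat.div_eq_of_lt hr',
          Nat.add_zero]
      rw [← e1, ← e2, h]
    have h2 : r = r' := by
      rw [h1] at h; omega
    refine ⟨?_, ?_, h2⟩
    · cases b <;> cases b' <;> simp at h1 <;> omega
    · cases b <;> cases b' <;> simp at h1 <;> first | rfl | omega
  rcases u with x | x | x | c | c | c | ⟨x, b, r⟩ <;>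
    rcases v with x' | x' | x' | c' | c' | c' | ⟨x', b', r'⟩ <;>
    simp only [used, Set.mem_ofPred_eq] at hu hv <;> simp only [num] at h
  all_goals first
    | (exfalso; omega)
    | (congr 1 <;> omega)
    | skip
  obtain ⟨h1, h2, h3⟩ := hP x b r x' b' r' hu.2 hv.2 (by omega)
  rw [h1, h2, h3]

/-- number of vertices -/
def nVert (V M : ℕ) : ℕ := 3 * V + 3 * M + 2 * V * (2 * M + 1)

theorem num_lt (V M : ℕ) (v : Vx) (hv : v ∈ used V M) : num V M v < nVert V M := by
  rcases v with x | x | x | c | c | c | ⟨x, b, r⟩ <;>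
    simp only [used, Set.mem_ofPred_eq] at hv <;> simp only [num, nVert]
  · omega
  · omega
  · omega
  · omega
  · omega
  · omega
  · have h1 : (2 * x + b.toNat + 1) * (2 * M + 1) ≤ 2 * V * (2 * M + 1) := by
      apply Nat.mul_le_mul_right
      cases b <;> simp <;> omega
    have h2 : (2 * x + b.toNat + 1) * (2 * M + 1) =
      (2 * x + b.toNat) * (2 * M + 1) + (2 * M + 1) := by ring
    omega

/-- The instance with numbered vertices. -/
def numInst (V M : ℕ) (cl : ℕ → Clause) : Instance where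
  toInst := (satInst V M cl).map (num V M)
  n := nVert V M

theorem edges_used (V M : ℕ) (cl : ℕ → Clause) (hV : ∀ c < M, ∀ l ∈ cl c, l.1 < V) :
    ∀ p ∈ (satInst V M cl).edges, p.1 ∈ used V M ∧ p.2 ∈ used V M := by
  intro p hp
  simp only [satInst, List.mem_append, List.mem_flatMap, List.mem_range, edA, edP, edC,
    List.mem_cons, List.not_mem_nil, or_false] at hp
  rcases hp with ⟨x, hx, rfl | rfl | rfl | rfl | rfl⟩ | ⟨x, hx, r, hr, rfl | rfl⟩ |
    ⟨c, hc, rfl | ⟨l, hl, rfl | rfl⟩⟩
  all_goals simp only [used, Set.mem_ofPred_eq]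
  · exact ⟨hx, hx⟩
  · exact ⟨hx, hx, by omega⟩
  · exact ⟨hx, hx, by omega⟩
  · exact ⟨⟨hx, by omega⟩, hx⟩
  · exact ⟨⟨hx, by omega⟩, hx⟩
  · exact ⟨⟨hx, by omega⟩, hx, by omega⟩
  · exact ⟨⟨hx, by omega⟩, hx, by omega⟩
  · exact ⟨hc, hc⟩
  · exact ⟨hc, hV c hc l hl, by omega⟩
  · exact ⟨⟨hV c hc l hl, by omega⟩, hc⟩

theorem X_used (V M : ℕ) (cl : ℕ → Clause) : ∀ v ∈ (satInst V M cl).X, v ∈ used V M := by
  intro v hv
  rcases mem_X.1 hv with ⟨x, hx, rfl⟩ | ⟨c, hc, rfl⟩
  · exact hx
  · exact hc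

theorem Y_used (V M : ℕ) (cl : ℕ → Clause) : ∀ v ∈ (satInst V M cl).Y, v ∈ used V M := by
  intro v hv
  rcases mem_Y.1 hv with ⟨x, hx, rfl⟩ | ⟨c, hc, rfl⟩
  · exact hx
  · exact hc

theorem numInst_yes_iff (V M : ℕ) (cl : ℕ → Clause) (hV : ∀ c < M, ∀ l ∈ cl c, l.1 < V) :
    (numInst V M cl).Yes ↔ (satInst V M cl).Yes :=
  Inst.yes_map_iff (satInst V M cl) (num V M) (used V M) (num_injOn V M) (edges_used V M cl hV)
    (X_used V M cl) (Y_used V M cl)

theorem numInst_valid (V M : ℕ) (cl : ℕ → Clause) (hV : ∀ c < M, ∀ l ∈ cl c, l.1 < V)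
    (hM : 0 < V + M) : (numInst V M cl).Valid := by
  refine ⟨hM, ?_, ?_, ?_, ?_, ?_, ?_, ?_⟩
  · intro p hp
    obtain ⟨q, hq, rfl⟩ := List.mem_map.1 hp
    obtain ⟨h1, h2⟩ := edges_used V M cl hV q hq
    exact ⟨num_lt _ _ _ h1, num_lt _ _ _ h2⟩
  · intro x hx
    obtain ⟨q, hq, rfl⟩ := List.mem_map.1 hx
    exact num_lt _ _ _ (X_used V M cl q hq)
  · intro x hx
    obtain ⟨q, hq, rfl⟩ := List.mem_map.1 hx
    exact num_lt _ _ _ (Y_used V M cl q hq)
  · apply List.Nodup.map_on
    · intro u hu v hv h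
      exact num_injOn V M (X_used V M cl u hu) (X_used V M cl v hv) h
    · simp only [satInst]
      apply List.Nodup.append
      · exact (List.nodup_range).map (fun a b h => by simpa using h)
      · exact (List.nodup_range).map (fun a b h => by simpa using h)
      · intro u hu hv
        simp only [List.mem_map] at hu hv
        obtain ⟨x, -, rfl⟩ := hu
        obtain ⟨c, -, hc⟩ := hv
        exact absurd hc (by simp)
  · apply List.Nodup.map_on
    · intro u hu v hv h
      exact num_injOn V M (Y_used V M cl u hu) (Y_used V M cl v hv) h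
    · simp only [satInst]
      apply List.Nodup.append
      · exact (List.nodup_range).map (fun a b h => by simpa using h)
      · exact (List.nodup_range).map (fun a b h => by simpa using h)
      · intro u hu hv
        simp only [List.mem_map] at hu hv
        obtain ⟨x, -, rfl⟩ := hu
        obtain ⟨c, -, hc⟩ := hv
        exact absurd hc (by simp)
  · simp [numInst, Inst.map, satInst]
  · simp [numInst, Inst.map, satInst]

end OddP
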