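import Pool.Agent.OddP.Defs

/-!
# ODD-PATHS: invariance under renaming of the vertices
-/

namespace OddP

namespace Inst

variable {α β : Type}

/-- Renaming of the vertices. -/
def map (f : α → β) (I : Inst α) : Inst β where
  edges := I.edges.map (fun p => (f p.1, f p.2))
  k := I.k
  X := I.X.map f
  Y := I.Y.map f

theorem Joins.mem {I : Inst α} {e : ℕ} {u v : α} (h : I.Joins e u v) :
    (u, v) ∈ I.edges ∨ (v, u) ∈ I.edges := by
  rcases h with h | h
  · exact Or.inl (List.mem_of_getElem? h)
  · exact Or.inr (List.mem_of_getElem? h)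

theorem joins_of_mem {I : Inst α} {u v : α} (h : (u, v) ∈ I.edges ∨ (v, u) ∈ I.edges) :
    ∃ e, I.Joins e u v := by
  rcases h with h | h
  · obtain ⟨e, he⟩ := List.mem_iff_getElem?.1 h
    exact ⟨e, Or.inl he⟩
  · obtain ⟨e, he⟩ := List.mem_iff_getElem?.1 h
    exact ⟨e, Or.inr he⟩

/-- Renaming the vertices injectively does not change the answer. -/
theorem yes_map_iff (I : Inst α) (f : α → β) (S : Set α) (hf : Set.InjOn f S)
    (hE : ∀ p ∈ I.edges, p.1 ∈ S ∧ p.2 ∈ S) (hX : ∀ x ∈ I.X, x ∈ S) (hY : ∀ y ∈ I.Y, y ∈ S) :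
    (I.map f).Yes ↔ I.Yes := by
  have hJS : ∀ (e : ℕ) (u v : α), I.Joins e u v → u ∈ S ∧ v ∈ S := by
    intro e u v h
    rcases h.mem with h | h
    · exact hE _ h
    · exact (hE _ h).symm
  have hJ : ∀ (e : ℕ) (u v : α), I.Joins e u v → (I.map f).Joins e (f u) (f v) := by
    intro e u v h
    rcases h with h | h
    · left; simp [map, h]
    · right; simp [map, h]
  have hJ' : ∀ (e : ℕ) (u' v' : β), (I.map f).Joins e u' v' →
      ∃ u v, I.Joins e u v ∧ f u = u' ∧ f v = v' := by
    intro e u' v' h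
    rcases h with h | h
    · simp only [map, List.getElem?_map, Option.map_eq_some_iff] at h
      obtain ⟨p, hp, h2⟩ := h
      exact ⟨p.1, p.2, Or.inl (by simpa using hp), congrArg Prod.fst h2, congrArg Prod.snd h2⟩
    · simp only [map, List.getElem?_map, Option.map_eq_some_iff] at h
      obtain ⟨p, hp, h2⟩ := h
      exact ⟨p.2, p.1, Or.inr (by simpa using hp), congrArg Prod.snd h2, congrArg Prod.fst h2⟩
  constructor
  · rintro ⟨P, hodd, hP⟩
    -- every vertex of a path of odd length is the image of a vertex in `S`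
    have hv : ∀ a, ∀ i ≤ (P a).len, ∃ u ∈ S, f u = (P a).v i := by
      intro a i hi
      have h0 : 0 < (P a).len := (hodd a).pos
      rcases Nat.lt_or_ge i (P a).len with h | h
      · obtain ⟨u, v, hj, hu, -⟩ := hJ' _ _ _ ((P a).join i h)
        exact ⟨u, (hJS _ _ _ hj).1, hu⟩
      · obtain ⟨u, v, hj, -, hv⟩ := hJ' _ _ _ ((P a).join (i - 1) (by omega))
        rw [show i - 1 + 1 = i by omega] at hv
        exact ⟨v, (hJS _ _ _ hj).2, hv⟩
    classical
    have hchoice : ∀ a, ∃ w : ℕ → α, ∀ i ≤ (P a).len, w i ∈ S ∧ f (w i) = (P a).v i := by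
      intro a
      have : ∀ i, ∃ u, i ≤ (P a).len → u ∈ S ∧ f u = (P a).v i := by
        intro i
        by_cases h : i ≤ (P a).len
        · obtain ⟨u, hu, hu2⟩ := hv a i h
          exact ⟨u, fun _ => ⟨hu, hu2⟩⟩
        · obtain ⟨u, hu, hu2⟩ := hv a 0 (Nat.zero_le _)
          exact ⟨u, fun h' => absurd h' h⟩
      choose w hw using this
      exact ⟨w, fun i hi => hw i hi⟩
    choose w hw using hchoice
    have hmemX : ∀ u ∈ S, f u ∈ (I.map f).X ↔ u ∈ I.X := by
      intro u hu
      simp only [map, List.mem_map]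
      constructor
      · rintro ⟨x, hx, hxu⟩
        rw [← hf (hX x hx) hu hxu]; exact hx
      · intro h; exact ⟨u, h, rfl⟩
    have hmemY : ∀ u ∈ S, f u ∈ (I.map f).Y ↔ u ∈ I.Y := by
      intro u hu
      simp only [map, List.mem_map]
      constructor
      · rintro ⟨x, hx, hxu⟩
        rw [← hf (hY x hx) hu hxu]; exact hx
      · intro h; exact ⟨u, h, rfl⟩
    let Q : Fin I.k → I.XYPath := fun a =>
      { len := (P a).len
        v := w a
        e := (P a).e
        join := by
          intro i hi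
          obtain ⟨u, v, hj, hu, hv⟩ := hJ' _ _ _ ((P a).join i hi)
          have e1 : w a i = u := hf (hw a i hi.le).1 (hJS _ _ _ hj).1 (by rw [(hw a i hi.le).2, hu])
          have e2 : w a (i + 1) = v := hf (hw a (i + 1) hi).1 (hJS _ _ _ hj).2
            (by rw [(hw a (i + 1) hi).2, hv])
          rw [e1, e2]; exact hj
        inj := by
          intro i hi j hj h
          apply (P a).inj i hi j hj
          rw [← (hw a i hi).2, ← (hw a j hj).2, h]
        start := by
          rw [← hmemX _ (hw a 0 (Nat.zero_le _)).1, (hw a 0 (Nat.zero_le _)).2]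
          exact (P a).start
        stop := by
          rw [← hmemY _ (hw a _ le_rfl).1, (hw a _ le_rfl).2]
          exact (P a).stop
        inner := by
          intro i hi hi2
          rw [← hmemX _ (hw a i hi2.le).1, ← hmemY _ (hw a i hi2.le).1, (hw a i hi2.le).2]
          exact (P a).inner i hi hi2 }
    refine ⟨Q, hodd, ?_⟩
    intro a b hab
    obtain ⟨h1, h2⟩ := hP a b hab
    refine ⟨?_, h2⟩
    rw [Set.disjoint_left] at h1 ⊢
    rintro u ⟨i, hi, hi2, rfl⟩ ⟨j, hj, hj2, hju⟩
    change i < (P a).len at hi2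
    change j < (P b).len at hj2
    change w b j = w a i at hju
    apply h1 ⟨i, hi, hi2, rfl⟩
    exact ⟨j, hj, hj2, by rw [← (hw b j hj2.le).2, hju, (hw a i hi2.le).2]⟩
  · rintro ⟨P, hodd, hP⟩
    have hS : ∀ a, ∀ i ≤ (P a).len, (P a).v i ∈ S := by
      intro a i hi
      have h0 : 0 < (P a).len := (hodd a).pos
      rcases Nat.lt_or_ge i (P a).len with h | h
      · exact (hJS _ _ _ ((P a).join i h)).1
      · have := (hJS _ _ _ ((P a).join (i - 1) (by omega))).2
        rwa [show i - 1 + 1 = i by omega] at this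
    let Q : Fin (I.map f).k → (I.map f).XYPath := fun a =>
      { len := (P a).len
        v := fun i => f ((P a).v i)
        e := (P a).e
        join := fun i hi => hJ _ _ _ ((P a).join i hi)
        inj := by
          intro i hi j hj h
          exact (P a).inj i hi j hj (hf (hS a i hi) (hS a j hj) h)
        start := List.mem_map.2 ⟨_, (P a).start, rfl⟩
        stop := List.mem_map.2 ⟨_, (P a).stop, rfl⟩
        inner := by
          intro i hi hi2
          obtain ⟨h1, h2⟩ := (P a).inner i hi hi2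
          constructor
          · intro h
            obtain ⟨x, hx, hx2⟩ := List.mem_map.1 h
            exact h1 (hf (hX x hx) (hS a i hi2.le) hx2 ▸ hx)
          · intro h
            obtain ⟨x, hx, hx2⟩ := List.mem_map.1 h
            exact h2 (hf (hY x hx) (hS a i hi2.le) hx2 ▸ hx) }
    refine ⟨Q, hodd, ?_⟩
    intro a b hab
    obtain ⟨h1, h2⟩ := hP a b hab
    refine ⟨?_, h2⟩
    rw [Set.disjoint_left] at h1 ⊢
    rintro u ⟨i, hi, hi2, rfl⟩ ⟨j, hj, hj2, hju⟩
    change i < (P a).len at hi2
    change j < (P b).len at hj2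
    change f ((P b).v j) = f ((P a).v i) at hju
    have := hf (hS b j hj2.le) (hS a i hi2.le) hju
    exact h1 ⟨i, hi, hi2, rfl⟩ ⟨j, hj, hj2, this⟩

end Inst

end OddP
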