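import Mathlib

/-!
# The decision problem ODD-PATHS: definitions
-/

namespace OddP

/-- A multigraph with vertices in `α` together with the data `X`, `Y`, `k` of an instance of
ODD-PATHS.  The graph is given by the list of its edges: the entry number `e` of `edges` is the
pair of ends (in an arbitrary order) of the edge number `e`.  Loops and parallel edges are
allowed. -/
structure Inst (α : Type) where
  /-- the edges; the edge number `e` joins the two entries of the pair at position `e` -/
  edges : List (α × α)
  /-- the number of paths asked for -/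
  k : ℕ
  /-- the set `X` -/
  X : List α
  /-- the set `Y` -/
  Y : List α

namespace Inst

variable {α β : Type}

/-- The edge number `e` joins `u` and `v`. -/
def Joins (I : Inst α) (e : ℕ) (u v : α) : Prop :=
  I.edges[e]? = some (u, v) ∨ I.edges[e]? = some (v, u)

/-- An `(X,Y)`-path: vertices `v 0, …, v len`, pairwise distinct, consecutive ones joined by the
edges number `e 0, …, e (len - 1)`, the first vertex in `X`, the last vertex in `Y`, and no
internal vertex in `X ∪ Y`. (The values of `v` beyond `len` and of `e` beyond `len - 1` are
irrelevant.) -/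
structure XYPath (I : Inst α) where
  /-- the length (number of edges) -/
  len : ℕ
  /-- the vertices -/
  v : ℕ → α
  /-- the edges -/
  e : ℕ → ℕ
  join : ∀ i < len, I.Joins (e i) (v i) (v (i + 1))
  inj : ∀ i ≤ len, ∀ j ≤ len, v i = v j → i = j
  start : v 0 ∈ I.X
  stop : v len ∈ I.Y
  inner : ∀ i, 0 < i → i < len → v i ∉ I.X ∧ v i ∉ I.Y

/-- The set of internal vertices of a path. -/
def XYPath.internal {I : Inst α} (P : I.XYPath) : Set α :=
  {w | ∃ i, 0 < i ∧ i < P.len ∧ P.v i = w}

/-- The set of edges of a path. -/
def XYPath.edgeSet {I : Inst α} (P : I.XYPath) : Set ℕ :=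
  {e | ∃ i, i < P.len ∧ P.e i = e}

/-- The question of ODD-PATHS: there are `k` pairwise internally disjoint, pairwise different
`(X,Y)`-paths of odd length. -/
def Yes (I : Inst α) : Prop :=
  ∃ P : Fin I.k → I.XYPath, (∀ a, Odd (P a).len) ∧
    ∀ a b, a ≠ b → Disjoint (P a).internal (P b).internal ∧ (P a).edgeSet ≠ (P b).edgeSet

end Inst

/-- An instance of ODD-PATHS: the vertex set is `{0, …, n - 1}`. -/
structure Instance extends Inst ℕ where
  /-- the number of vertices -/
  n : ℕ

/-- The conditions on an instance: `k ≥ 1`, the edges join vertices, and `X`, `Y` are sets of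
exactly `k` vertices. -/
structure Instance.Valid (I : Instance) : Prop where
  pos : 0 < I.k
  edges_lt : ∀ p ∈ I.edges, p.1 < I.n ∧ p.2 < I.n
  X_lt : ∀ x ∈ I.X, x < I.n
  Y_lt : ∀ y ∈ I.Y, y < I.n
  X_nodup : I.X.Nodup
  Y_nodup : I.Y.Nodup
  X_card : I.X.length = I.k
  Y_card : I.Y.length = I.k

/-- A number, in unary. -/
def encNat (m : ℕ) : List Bool := List.replicate m true ++ [false]

/-- A list. -/
def encList {α : Type} (f : α → List Bool) (l : List α) : List Bool :=
  l.flatMap (fun e => true :: f e) ++ [false]

/-- The bit string of an instance: the number of vertices, `k`, the list of the edges, the lists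
`X` and `Y`. -/
def Instance.encode (I : Instance) : List Bool :=
  encNat I.n ++ (encNat I.k ++ (encList (fun p => encNat p.1 ++ encNat p.2) I.edges ++
    (encList encNat I.X ++ encList encNat I.Y)))

/-- The language ODD-PATHS: the encodings of the yes-instances. -/
def ODDPATHS : Set (List Bool) := {s | ∃ I : Instance, I.Valid ∧ I.Yes ∧ I.encode = s}

end OddP
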